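import Pool.Agent.Q60.D3H.StmC

/-!
# Project D3H (helper60): job C8 MANY
-/

set_option autoImplicit false
set_option linter.unusedVariables false

namespace Pool.Agent.Q177.D3H

open Module Pool.Agent.W547.LD Pool.Agent.W547.LD.Comb Pool.Agent.Q60.D3G Pool.Agent.Q60.D3H

theorem many (h7 : S_fpart) : S_many := by
  classical
  intro G _ _ c hc O hO hdisj hker P hPO a ha h0
  have hpart := h7 G c hc O hO hdisj hker P hPO a ha
  have hsuppQ : ∀ Q, ∀ S, S ∉ Q → aQ a Q S = 0 := fun Q S hS => if_neg hS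
  have hcm : ∀ Q ∈ O, ∀ S, Sᶜ ∈ Q ↔ S ∈ Q := fun Q hQ S =>
    ⟨fun h1 => by simpa using (hO Q hQ).compl _ h1, (hO Q hQ).compl S⟩
  have hoddQ : ∀ Q ∈ O, ∀ S, aQ a Q Sᶜ = -aQ a Q S := by
    intro Q hQ S
    unfold aQ
    by_cases h : S ∈ Q
    · rw [if_pos h, if_pos ((hO Q hQ).compl S h), ha.odd]
    · rw [if_neg h, if_neg (fun h1 => h ((hcm Q hQ S).1 h1)), neg_zero]
  -- a positive element in each non-zero orbit
  have hgood : ∀ Q ∈ O, (∃ S ∈ Q, a S ≠ 0) →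
      ∃ x ∈ Q, 0 < a x ∧ ∃ N, GoodF c Q (aQ a Q) x N := by
    rintro Q hQ ⟨S, hS, hne⟩
    have hx : ∃ x ∈ Q, 0 < a x := by
      rcases lt_or_gt_of_ne hne with h | h
      · exact ⟨Sᶜ, (hO Q hQ).compl S hS, by rw [ha.odd]; linarith⟩
      · exact ⟨S, hS, h⟩
    obtain ⟨x, hx, hpos⟩ := hx
    obtain ⟨N, hN⟩ := (hO Q hQ).good (aQ a Q) (hsuppQ Q) (hoddQ Q hQ) (hpart Q hQ) x (by
        unfold aQ
        rw [if_pos hx]
        exact hpos.ne')
    exact ⟨x, hx, hpos, N, hN⟩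
  have haQ : ∀ Q ∈ O, ∀ x ∈ Q, aQ a Q x = a x := fun Q _ x hx => if_pos hx
  -- the first orbit
  obtain ⟨S0, hS0⟩ := Function.ne_iff.1 h0
  have hS0P : S0 ∈ P := by
    by_contra h
    exact hS0 (ha.supp S0 h)
  obtain ⟨Q0, hQ0, hS0Q⟩ := (hPO S0).1 hS0P
  obtain ⟨x, hx, hxpos, N, hN⟩ := hgood Q0 hQ0 ⟨S0, hS0Q, hS0⟩
  -- the scalar products with the character
  let t : Set (Set G) → ℚ := fun Q => dot (FF (aQ a Q)) (chi N)
  have hsum : ∑ Q ∈ O, t Q = 0 := by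
    have h1 := dot_sum O (fun Q => FF (aQ a Q)) (chi N)
    rw [sum_FF O hdisj hPO ha, dot_zero] at h1
    exact h1.symm
  have hG : (0 : ℚ) < Fintype.card G := Nat.cast_pos.2 Fintype.card_pos
  have hval : ∀ Q ∈ O, ∀ z ∈ Q, GoodF c Q (aQ a Q) z N →
      t Q = 2 * a z * psum N z 1 * Fintype.card G := by
    intro Q hQ z hz hg
    change dot (FF (aQ a Q)) (chi N) = _
    have h1 := hg.FF_eq
    rw [h1, dot_smul, dot_chi_self, haQ Q hQ z hz]
  have ht0 : t Q0 ≠ 0 := by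
    rw [hval Q0 hQ0 x hx hN]
    exact mul_ne_zero (mul_ne_zero (mul_ne_zero two_ne_zero hxpos.ne') hN.ne) hG.ne'
  have hex : ∀ Q ∈ O.filter (fun Q => t Q ≠ 0), ∃ z, z ∈ Q ∧ 0 < a z ∧
      GoodF c Q (aQ a Q) z N := by
    intro Q hQ'
    obtain ⟨hQ, htQ⟩ := Finset.mem_filter.1 hQ'
    have hQne : ∃ S ∈ Q, a S ≠ 0 := by
      by_contra hcon
      push Not at hcon
      apply htQ
      change dot (FF (aQ a Q)) (chi N) = 0
      have h2 : FF (aQ a Q) = 0 := by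
        funext σ
        change ∑ S : Set G, aQ a Q S * eps S σ = 0
        refine Finset.sum_eq_zero fun S _ => ?_
        unfold aQ
        by_cases h : S ∈ Q
        · rw [if_pos h, hcon S h, zero_mul]
        · rw [if_neg h, zero_mul]
      rw [h2, dot_zero]
    obtain ⟨y, hy, hypos, N', hN'⟩ := hgood Q hQ hQne
    have hNN : N = N' := by
      by_contra h
      apply htQ
      change dot (FF (aQ a Q)) (chi N) = 0
      have h2 := hN'.FF_eq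
      rw [h2, dot_smul, dot_comm, dot_chi hc hN.imag hN'.imag h, mul_zero]
    subst hNN
    exact ⟨y, hy, hypos, hN'⟩
  choose! z hz using hex
  have hzO : ∀ Q ∈ O.filter (fun Q => t Q ≠ 0), Q ∈ O := fun Q hQ => (Finset.mem_filter.1 hQ).1
  have hzne : ∀ Q ∈ O.filter (fun Q => t Q ≠ 0), ∀ Q' ∈ O.filter (fun Q => t Q ≠ 0), Q ≠ Q' →
      ∀ (S : OrbT N (z Q)) (T : OrbT N (z Q')), S.1 ≠ T.1 := by
    rintro Q hQ Q' hQ' hne ⟨S, τ, hτ, rfl⟩ ⟨T, τ', hτ', rfl⟩ h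
    have h1 : tr τ (z Q) ∈ Q := (hO Q (hzO Q hQ)).stable τ _ (hz Q hQ).1
    have h2 : tr τ' (z Q') ∈ Q' := (hO Q' (hzO Q' hQ')).stable τ' _ (hz Q' hQ').1
    change tr τ (z Q) = tr τ' (z Q') at h
    rw [← h] at h2
    exact Set.disjoint_left.1 (hdisj Q (hzO Q hQ) Q' (hzO Q' hQ') hne) h1 h2
  refine ⟨N, (O.filter (fun Q => t Q ≠ 0)).image z, ?_, hN.imag, ?_, ?_, ?_⟩
  · exact ⟨z Q0, Finset.mem_image_of_mem z (Finset.mem_filter.2 ⟨hQ0, ht0⟩)⟩
  · intro y hy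
    obtain ⟨Q, hQ, rfl⟩ := Finset.mem_image.1 hy
    obtain ⟨h1, h2, h3⟩ := hz Q hQ
    refine ⟨h2, h3.half, h3.stb_le, ?_, Q, hzO Q hQ, h1, h3.ne, h3.num⟩
    intro τ hτ
    have h4 := h3.pos τ hτ (z Q)
    rwa [haQ Q (hzO Q hQ) _ ((hO Q (hzO Q hQ)).stable τ _ h1), haQ Q (hzO Q hQ) _ h1] at h4
  · intro y hy y' hy' hne
    obtain ⟨Q, hQ, rfl⟩ := Finset.mem_image.1 hy
    obtain ⟨Q', hQ', rfl⟩ := Finset.mem_image.1 hy'
    exact hzne Q hQ Q' hQ' (fun h => hne (by rw [h]))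
  · have hinj : Set.InjOn z (O.filter (fun Q => t Q ≠ 0) : Finset (Set (Set G))) := by
      intro Q hQ Q' hQ' h
      by_contra hne
      have hQ1 : Q ∈ O.filter (fun Q => t Q ≠ 0) := hQ
      have hQ1' : Q' ∈ O.filter (fun Q => t Q ≠ 0) := hQ'
      have h1 := (hz Q hQ1).1
      have h2 := (hz Q' hQ1').1
      rw [← h] at h2
      exact Set.disjoint_left.1 (hdisj Q (hzO Q hQ1) Q' (hzO Q' hQ1') hne) h1 h2
    rw [Finset.sum_image hinj]
    have h1 : ∑ Q ∈ O.filter (fun Q => t Q ≠ 0), t Q = 0 := by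
      rw [Finset.sum_filter_ne_zero, hsum]
    have h2 : ∑ Q ∈ O.filter (fun Q => t Q ≠ 0), t Q =
        (∑ Q ∈ O.filter (fun Q => t Q ≠ 0), a (z Q) * psum N (z Q) 1) *
          (2 * Fintype.card G) := by
      rw [Finset.sum_mul]
      refine Finset.sum_congr rfl fun Q hQ => ?_
      rw [hval Q (hzO Q hQ) (z Q) (hz Q hQ).1 (hz Q hQ).2.2]
      ring
    rw [h1] at h2
    rcases mul_eq_zero.1 h2.symm with h3 | h3
    · exact h3
    · exfalso
      have : (0 : ℚ) < 2 * Fintype.card G := by positivity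
      exact this.ne' h3

end Pool.Agent.Q177.D3H
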